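import Mathlib
import Pool.Agent.Work.MP_d5e15b_co.Main

set_option autoImplicit false

namespace Pool.Agent.Results.MP_d5e15b_co.TransitiveNotPercolating

open Pool.Agent.Work.MP_d5e15b_co

/-- There is a finite connected bigraph whose fold involutions generate a group acting
transitively on the left vertices, but which is not left-cut-percolating. -/
theorem result : ∃ (A B : Type) (_ : Finite A) (_ : Finite B) (G : Bigraph A B),
    G.graph.Connected ∧ G.FoldTransitive ∧ ¬ G.LeftCutPercolating :=
  ⟨LV, RV, inferInstance, inferInstance, ex, ex_connected, ex_transitive, ex_not_percolating⟩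

end Pool.Agent.Results.MP_d5e15b_co.TransitiveNotPercolating
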